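import Mathlib

set_option autoImplicit false

/-!
# Numerated Boolean algebras and Lindenbaum algebras of classes of structures

Definitions of the problem file: numerated Boolean algebras, isomorphisms of numerated algebras, algebras of level
three of the arithmetical hierarchy, universal algebras, and the Lindenbaum algebras of the theories of the class of
all structures with a decidable complete theory and of the class of all strongly constructivizable structures.
-/

namespace Pool.Agent.H56.Lind

open FirstOrder

/-- A binary relation on the natural numbers is of class `Π⁰₃`: it is defined by a `∀ ∃ ∀` formula over a recursive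
relation. -/
def Pi3 (R : ℕ → ℕ → Prop) : Prop :=
  ∃ D : ℕ × ℕ × ℕ × ℕ × ℕ → Bool, Computable D ∧
    ∀ m n, R m n ↔ ∀ a, ∃ b, ∀ c, D (m, n, a, b, c) = true

/-- A numerated Boolean algebra: a Boolean algebra with a surjection of the natural numbers onto it. -/
structure NumAlg where
  /-- The elements. -/
  carrier : Type
  /-- The Boolean algebra. -/
  [alg : BooleanAlgebra carrier]
  /-- The numbering. -/
  num : ℕ → carrier
  /-- Every element has a number. -/
  surj : Function.Surjective num

attribute [instance] NumAlg.alg

/-- An isomorphism of two numbered Boolean algebras (given by their orders): an isomorphism which, as well as its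
inverse, is induced by a total recursive function on the numbers. -/
def RecIso {A B : Type} [PartialOrder A] [PartialOrder B] (ν₁ : ℕ → A) (ν₂ : ℕ → B) : Prop :=
  ∃ (μ : A ≃o B) (f g : ℕ → ℕ), Computable f ∧ Computable g ∧
    (∀ n, μ (ν₁ n) = ν₂ (f n)) ∧ ∀ n, μ.symm (ν₂ n) = ν₁ (g n)

/-- The numbering `n ↦ ν n ∩ a` of the algebra of all elements below `a`. -/
def NumAlg.below (A : NumAlg) (a : A.carrier) : ℕ → Set.Iic a :=
  fun n => ⟨A.num n ⊓ a, inf_le_right⟩

/-- A numerated Boolean algebra is a `Π⁰₃`-algebra if union, intersection and complement are induced by total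
recursive functions on the numbers and the relation `ν m = ν n` is of class `Π⁰₃`. -/
structure NumAlg.IsPi3 (A : NumAlg) : Prop where
  /-- Unions are recursive on numbers. -/
  sup : ∃ f : ℕ → ℕ → ℕ, Computable₂ f ∧ ∀ i j, A.num (f i j) = A.num i ⊔ A.num j
  /-- Intersections are recursive on numbers. -/
  inf : ∃ f : ℕ → ℕ → ℕ, Computable₂ f ∧ ∀ i j, A.num (f i j) = A.num i ⊓ A.num j
  /-- Complements are recursive on numbers. -/
  compl : ∃ f : ℕ → ℕ, Computable f ∧ ∀ i, A.num (f i) = (A.num i)ᶜ
  /-- Equality of the elements with given numbers is of class `Π⁰₃`. -/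
  eq : Pi3 fun m n => A.num m = A.num n

/-- A `Π⁰₃`-universal algebra: a `Π⁰₃`-algebra such that every numerated `Π⁰₃`-algebra is isomorphic, as a
numerated algebra, to the algebra of the elements below one of its elements. -/
def NumAlg.IsPi3Universal (U : NumAlg) : Prop :=
  U.IsPi3 ∧ ∀ A : NumAlg, A.IsPi3 → ∃ a : U.carrier, RecIso A.num (U.below a)

/-! ### Codes of formulas -/

variable {L : FirstOrder.Language.{0, 0}}

/-- The code of a term, for a coding `cf` of the function symbols. -/
def termCode (cf : (Σ n, L.Functions n) → ℕ) {n : ℕ} : L.Term (Empty ⊕ Fin n) → ℕ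
  | .var (.inl e) => e.elim
  | .var (.inr i) => Nat.pair 0 i
  | @FirstOrder.Language.Term.func _ _ k f ts =>
      Nat.pair (cf ⟨k, f⟩ + 1) (Encodable.encode (List.ofFn fun i => termCode cf (ts i)))

/-- The code of a formula, for codings `cf` of the function symbols and `cr` of the relation symbols. -/
def formulaCode (cf : (Σ n, L.Functions n) → ℕ) (cr : (Σ n, L.Relations n) → ℕ) :
    ∀ {n : ℕ}, L.BoundedFormula Empty n → ℕ
  | _, .falsum => Nat.pair 0 0
  | _, .equal t₁ t₂ => Nat.pair 1 (Nat.pair (termCode cf t₁) (termCode cf t₂))
  | _, @FirstOrder.Language.BoundedFormula.rel _ _ _ k R ts =>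
      Nat.pair 2 (Nat.pair (cr ⟨k, R⟩) (Encodable.encode (List.ofFn fun i => termCode cf (ts i))))
  | _, .imp φ ψ => Nat.pair 3 (Nat.pair (formulaCode cf cr φ) (formulaCode cf cr ψ))
  | _, .all φ => Nat.pair 4 (formulaCode cf cr φ)

/-- The complete theory of the structure `M` is decidable: for some injective coding of the symbols there is a total
recursive function which decides, given the code of a sentence, whether it holds in `M`. -/
def DecidableTheory (M : Type) [L.Structure M] : Prop :=
  ∃ (cf : (Σ n, L.Functions n) → ℕ) (cr : (Σ n, L.Relations n) → ℕ) (D : ℕ → Bool),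
    Function.Injective cf ∧ Function.Injective cr ∧ Computable D ∧
      ∀ φ : L.Sentence, D (formulaCode cf cr φ) = true ↔ M ⊨ φ

/-- The structure `M` is strongly constructivizable: there is a numbering of its universe under which the elementary
diagram is decidable, that is, a total recursive function decides, given the code of a formula with `n` free
variables and the list of the numbers of `n` elements, whether the formula holds at these elements. -/
def StronglyConstructivizable (M : Type) [L.Structure M] : Prop :=
  ∃ (cf : (Σ n, L.Functions n) → ℕ) (cr : (Σ n, L.Relations n) → ℕ) (ν : ℕ → M) (D : ℕ → Bool),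
    Function.Injective cf ∧ Function.Injective cr ∧ Function.Surjective ν ∧ Computable D ∧
      ∀ (n : ℕ) (φ : L.BoundedFormula Empty n) (v : Fin n → ℕ),
        D (Nat.pair (Nat.pair n (formulaCode cf cr φ)) (Encodable.encode (List.ofFn v))) = true ↔
          φ.Realize default (ν ∘ v)

/-- The theory of the class `D` of all structures whose complete theory is decidable. -/
def theoryOfDecidable (L : FirstOrder.Language.{0, 0}) : L.Theory :=
  {φ | ∀ (M : Type) [L.Structure M] [Nonempty M], DecidableTheory (L := L) M → M ⊨ φ}

/-- The theory of the class `C` of all strongly constructivizable structures. -/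
def theoryOfStronglyConstructivizable (L : FirstOrder.Language.{0, 0}) : L.Theory :=
  {φ | ∀ (M : Type) [L.Structure M] [Nonempty M], StronglyConstructivizable (L := L) M → M ⊨ φ}

/-- The order of the sentences: `φ` implies `ψ` over `T` (semantic consequence). -/
def Implies {L : FirstOrder.Language.{0, 0}} (T : L.Theory) (φ ψ : L.Sentence) : Prop :=
  T ⊨ᵇ φ.imp ψ

theorem Implies.rfl' {L : FirstOrder.Language.{0, 0}} (T : L.Theory) (φ : L.Sentence) : Implies T φ φ := by
  intro M v xs
  simp

theorem Implies.trans' {L : FirstOrder.Language.{0, 0}} (T : L.Theory) (φ ψ χ : L.Sentence) (h₁ : Implies T φ ψ)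
    (h₂ : Implies T ψ χ) : Implies T φ χ := by
  intro M v xs
  have a := h₁ M v xs
  have b := h₂ M v xs
  simp only [FirstOrder.Language.BoundedFormula.realize_imp] at a b ⊢
  exact fun h => b (a h)

/-- The sentences, to be preordered by implication over the theory `T`. -/
structure Sent (L : FirstOrder.Language.{0, 0}) (T : L.Theory) where
  /-- The sentence. -/
  sentence : L.Sentence

instance (L : FirstOrder.Language.{0, 0}) (T : L.Theory) : Preorder (Sent L T) where
  le φ ψ := Implies T φ.sentence ψ.sentence
  le_refl φ := Implies.rfl' T φ.sentence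
  le_trans φ ψ χ h₁ h₂ := Implies.trans' T _ _ _ h₁ h₂

/-- The Lindenbaum algebra of the theory `T`, given by its order: the sentences modulo equivalence over `T`. -/
abbrev Lindenbaum (L : FirstOrder.Language.{0, 0}) (T : L.Theory) : Type :=
  Antisymmetrization (Sent L T) (· ≤ ·)

/-- `𝓛(T) ≡ Π⁰₃`: the Lindenbaum algebra of `T` is isomorphic, as a Boolean algebra, to the underlying algebra of a
`Π⁰₃`-universal algebra. -/
def HasCharacteristicPi3 (L : FirstOrder.Language.{0, 0}) (T : L.Theory) : Prop :=
  ∃ U : NumAlg, U.IsPi3Universal ∧ Nonempty (Lindenbaum L T ≃o U.carrier)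

/-- A finite rich signature: finitely many symbols, and a predicate or function symbol of arity at least two, or two
unary function symbols. -/
def FiniteRich (L : FirstOrder.Language.{0, 0}) : Prop :=
  Finite (Σ n, L.Functions n) ∧ Finite (Σ n, L.Relations n) ∧
    ((∃ n, 2 ≤ n ∧ (Nonempty (L.Functions n) ∨ Nonempty (L.Relations n))) ∨ ∃ f g : L.Functions 1, f ≠ g)

end Pool.Agent.H56.Lind
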