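import Mathlib
import Pool.Agent.H56.Lind.Defs

set_option autoImplicit false

/-!
# There is no `Π⁰₃`-universal numerated Boolean algebra
-/

namespace Pool.Agent.H56.Lind

open Nat.Partrec (Code)
open Nat.Partrec.Code

/-! ### Bounded quantifiers -/

/-- All `b < n` satisfy `p`. -/
def allB (p : ℕ → Bool) (n : ℕ) : Bool := Nat.rec true (fun b acc => acc && p b) n

/-- Some `b < n` satisfies `p`. -/
def anyB (p : ℕ → Bool) (n : ℕ) : Bool := Nat.rec false (fun b acc => acc || p b) n

theorem allB_iff (p : ℕ → Bool) (n : ℕ) : allB p n = true ↔ ∀ b < n, p b = true := by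
  induction n with
  | zero => simp [allB]
  | succ n ih =>
    have h : allB p (n + 1) = (allB p n && p n) := rfl
    rw [h, Bool.and_eq_true, ih]
    constructor
    · rintro ⟨h1, h2⟩ b hb
      rcases Nat.lt_succ_iff_lt_or_eq.1 hb with h | h
      · exact h1 b h
      · exact h ▸ h2
    · intro h
      exact ⟨fun b hb => h b (Nat.lt_succ_of_lt hb), h n (Nat.lt_succ_self n)⟩

theorem anyB_iff (p : ℕ → Bool) (n : ℕ) : anyB p n = true ↔ ∃ b < n, p b = true := by
  induction n with
  | zero => simp [anyB]
  | succ n ih =>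
    have h : anyB p (n + 1) = (anyB p n || p n) := rfl
    rw [h, Bool.or_eq_true, ih]
    constructor
    · rintro (⟨b, hb, h⟩ | h)
      · exact ⟨b, Nat.lt_succ_of_lt hb, h⟩
      · exact ⟨n, Nat.lt_succ_self n, h⟩
    · rintro ⟨b, hb, h⟩
      rcases Nat.lt_succ_iff_lt_or_eq.1 hb with h' | h'
      · exact Or.inl ⟨b, h', h⟩
      · exact Or.inr (h' ▸ h)

theorem computable_and {α : Type} [Primcodable α] {p q : α → Bool} (hp : Computable p) (hq : Computable q) :
    Computable fun a => p a && q a :=
  (Primrec.and.to_comp : Computable₂ _).comp hp hq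

theorem computable_or {α : Type} [Primcodable α] {p q : α → Bool} (hp : Computable p) (hq : Computable q) :
    Computable fun a => p a || q a :=
  (Primrec.or.to_comp : Computable₂ _).comp hp hq

theorem computable_not {α : Type} [Primcodable α] {p : α → Bool} (hp : Computable p) :
    Computable fun a => !p a :=
  Primrec.not.to_comp.comp hp

theorem computable_allB {α : Type} [Primcodable α] {p : α → ℕ → Bool} {N : α → ℕ} (hp : Computable₂ p)
    (hN : Computable N) : Computable fun a => allB (p a) (N a) := by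
  have : Computable₂ fun (a : α) (q : ℕ × Bool) => q.2 && p a q.1 :=
    (computable_and (Computable.snd.comp Computable.snd)
      (hp.comp Computable.fst (Computable.fst.comp Computable.snd)))
  exact Computable.nat_rec hN (Computable.const true) this

theorem computable_anyB {α : Type} [Primcodable α] {p : α → ℕ → Bool} {N : α → ℕ} (hp : Computable₂ p)
    (hN : Computable N) : Computable fun a => anyB (p a) (N a) := by
  have : Computable₂ fun (a : α) (q : ℕ × Bool) => q.2 || p a q.1 :=
    (computable_or (Computable.snd.comp Computable.snd)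
      (hp.comp Computable.fst (Computable.fst.comp Computable.snd)))
  exact Computable.nat_rec hN (Computable.const false) this

/-! ### Double limits -/

/-- The double sequence `w` has the iterated limit `v`. -/
def Lim2 (w : ℕ → ℕ → Bool) (v : Bool) : Prop :=
  ∃ s₀, ∀ s ≥ s₀, ∃ t₀, ∀ t ≥ t₀, w s t = v

theorem Lim2.map₂ {w₁ w₂ : ℕ → ℕ → Bool} {v₁ v₂ : Bool} (F : Bool → Bool → Bool) (h₁ : Lim2 w₁ v₁)
    (h₂ : Lim2 w₂ v₂) : Lim2 (fun s t => F (w₁ s t) (w₂ s t)) (F v₁ v₂) := by
  obtain ⟨s₁, h₁⟩ := h₁
  obtain ⟨s₂, h₂⟩ := h₂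
  refine ⟨max s₁ s₂, fun s hs => ?_⟩
  obtain ⟨t₁, h₁⟩ := h₁ s (le_trans (le_max_left _ _) hs)
  obtain ⟨t₂, h₂⟩ := h₂ s (le_trans (le_max_right _ _) hs)
  refine ⟨max t₁ t₂, fun t ht => ?_⟩
  show F (w₁ s t) (w₂ s t) = _
  rw [h₁ t (le_trans (le_max_left _ _) ht), h₂ t (le_trans (le_max_right _ _) ht)]

theorem Lim2.not {w : ℕ → ℕ → Bool} {v : Bool} (h : Lim2 w v) : Lim2 (fun s t => !w s t) (!v) :=
  h.map₂ (fun a _ => !a) h

theorem Lim2.const (v : Bool) : Lim2 (fun _ _ => v) v := ⟨0, fun _ _ => ⟨0, fun _ _ => rfl⟩⟩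

/-- A double limit which is true, as a `∀ ∃ ∀` statement. -/
theorem Lim2.iff {w : ℕ → ℕ → Bool} {v : Bool} (h : Lim2 w v) :
    v = true ↔ ∀ a, ∃ b, ∀ c, w (a + (Nat.unpair b).1) ((Nat.unpair b).2 + c) = true := by
  obtain ⟨s₀, h⟩ := h
  constructor
  · intro hv a
    obtain ⟨t₀, ht⟩ := h (a + s₀) (Nat.le_add_left _ _)
    refine ⟨Nat.pair s₀ t₀, fun c => ?_⟩
    simp only [Nat.unpair_pair]
    rw [ht _ (Nat.le_add_right _ _), hv]
  · intro hw
    obtain ⟨b, hb⟩ := hw s₀
    obtain ⟨t₀, ht⟩ := h (s₀ + (Nat.unpair b).1) (Nat.le_add_right _ _)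
    rw [← hb t₀, ht _ (Nat.le_add_left _ _)]

/-! ### Boolean terms -/

/-- The value of the Boolean term with code `n` when the variables have the values `β`. -/
def ev (β : ℕ → Bool) (n : ℕ) : Bool :=
  if (Nat.unpair n).1 = 0 then β (Nat.unpair n).2
  else if (Nat.unpair n).1 = 1 then !ev β (Nat.unpair n).2
  else if (Nat.unpair n).1 = 2 then
    ev β (Nat.unpair (Nat.unpair n).2).1 && ev β (Nat.unpair (Nat.unpair n).2).2
  else if (Nat.unpair n).1 = 3 then
    ev β (Nat.unpair (Nat.unpair n).2).1 || ev β (Nat.unpair (Nat.unpair n).2).2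
  else false
termination_by n
decreasing_by
  all_goals
    have h1 := Nat.add_le_pair (Nat.unpair n).1 (Nat.unpair n).2
    rw [Nat.pair_unpair] at h1
    have h2 := Nat.unpair_left_le (Nat.unpair n).2
    have h3 := Nat.unpair_right_le (Nat.unpair n).2
    omega

theorem unpair_lt_aux {n : ℕ} (h : (Nat.unpair n).1 ≠ 0) : (Nat.unpair n).2 < n := by
  have h1 := Nat.add_le_pair (Nat.unpair n).1 (Nat.unpair n).2
  rw [Nat.pair_unpair] at h1
  omega

/-- The course of values form of `ev`. -/
def evStep (β : ℕ → Bool) (l : List Bool) : Bool :=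
  if (Nat.unpair l.length).1 = 0 then β (Nat.unpair l.length).2
  else if (Nat.unpair l.length).1 = 1 then !(l.getD (Nat.unpair l.length).2 false)
  else if (Nat.unpair l.length).1 = 2 then
    l.getD (Nat.unpair (Nat.unpair l.length).2).1 false && l.getD (Nat.unpair (Nat.unpair l.length).2).2 false
  else if (Nat.unpair l.length).1 = 3 then
    l.getD (Nat.unpair (Nat.unpair l.length).2).1 false || l.getD (Nat.unpair (Nat.unpair l.length).2).2 false
  else false

theorem getD_map_range (f : ℕ → Bool) {n m : ℕ} (h : m < n) : ((List.range n).map f).getD m false = f m := by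
  simp [List.getD, h]

theorem evStep_eq (β : ℕ → Bool) (n : ℕ) : evStep β ((List.range n).map (ev β)) = ev β n := by
  rw [evStep, ev]
  simp only [List.length_map, List.length_range]
  by_cases h0 : (Nat.unpair n).1 = 0
  · simp [h0]
  · have h1 := unpair_lt_aux h0
    have h2 := lt_of_le_of_lt (Nat.unpair_left_le (Nat.unpair n).2) h1
    have h3 := lt_of_le_of_lt (Nat.unpair_right_le (Nat.unpair n).2) h1
    rw [getD_map_range _ h1, getD_map_range _ h2, getD_map_range _ h3]

theorem ev_var (β : ℕ → Bool) (x : ℕ) : ev β (Nat.pair 0 x) = β x := by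
  rw [ev]; simp

theorem ev_not (β : ℕ → Bool) (x : ℕ) : ev β (Nat.pair 1 x) = !ev β x := by
  rw [ev]; simp

theorem ev_and (β : ℕ → Bool) (x y : ℕ) : ev β (Nat.pair 2 (Nat.pair x y)) = (ev β x && ev β y) := by
  rw [ev]; simp

theorem ev_or (β : ℕ → Bool) (x y : ℕ) : ev β (Nat.pair 3 (Nat.pair x y)) = (ev β x || ev β y) := by
  rw [ev]; simp

theorem ev_false (β : ℕ → Bool) : ev β (Nat.pair 4 0) = false := by
  rw [ev]; simp

/-- Boolean terms commute with double limits. -/
theorem lim2_ev {β : ℕ → ℕ → ℕ → Bool} {z : ℕ → Bool} (h : ∀ x, Lim2 (β x) (z x)) (n : ℕ) :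
    Lim2 (fun s t => ev (fun x => β x s t) n) (ev z n) := by
  induction n using Nat.strong_induction_on with
  | _ n ih =>
    by_cases h0 : (Nat.unpair n).1 = 0
    · have e1 : ev z n = z (Nat.unpair n).2 := by rw [ev]; simp [h0]
      have e2 : (fun s t => ev (fun x => β x s t) n) = β (Nat.unpair n).2 := by
        funext s t; rw [ev]; simp [h0]
      rw [e1, e2]
      exact h _
    · have h1 := unpair_lt_aux h0
      have h2 := lt_of_le_of_lt (Nat.unpair_left_le (Nat.unpair n).2) h1
      have h3 := lt_of_le_of_lt (Nat.unpair_right_le (Nat.unpair n).2) h1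
      by_cases k1 : (Nat.unpair n).1 = 1
      · have e1 : ev z n = !ev z (Nat.unpair n).2 := by rw [ev]; simp [k1]
        have e2 : (fun s t => ev (fun x => β x s t) n) =
            fun s t => !ev (fun x => β x s t) (Nat.unpair n).2 := by
          funext s t; rw [ev]; simp [k1]
        rw [e1, e2]
        exact (ih _ h1).not
      · by_cases k2 : (Nat.unpair n).1 = 2
        · have e1 : ev z n = (ev z (Nat.unpair (Nat.unpair n).2).1 && ev z (Nat.unpair (Nat.unpair n).2).2) := by
            rw [ev]; simp [k2]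
          have e2 : (fun s t => ev (fun x => β x s t) n) =
              fun s t => (ev (fun x => β x s t) (Nat.unpair (Nat.unpair n).2).1 &&
                ev (fun x => β x s t) (Nat.unpair (Nat.unpair n).2).2) := by
            funext s t; rw [ev]; simp [k2]
          rw [e1, e2]
          exact (ih _ h2).map₂ _ (ih _ h3)
        · by_cases k3 : (Nat.unpair n).1 = 3
          · have e1 : ev z n =
                (ev z (Nat.unpair (Nat.unpair n).2).1 || ev z (Nat.unpair (Nat.unpair n).2).2) := by
              rw [ev]; simp [k3]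
            have e2 : (fun s t => ev (fun x => β x s t) n) =
                fun s t => (ev (fun x => β x s t) (Nat.unpair (Nat.unpair n).2).1 ||
                  ev (fun x => β x s t) (Nat.unpair (Nat.unpair n).2).2) := by
              funext s t; rw [ev]; simp [k3]
            rw [e1, e2]
            exact (ih _ h2).map₂ _ (ih _ h3)
          · have e1 : ev z n = false := by rw [ev]; simp [h0, k1, k2, k3]
            have e2 : (fun s t => ev (fun x => β x s t) n) = fun _ _ => false := by
              funext s t; rw [ev]; simp [h0, k1, k2, k3]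
            rw [e1, e2]
            exact Lim2.const false

end Pool.Agent.H56.Lind
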