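import Mathlib
import Pool.Agent.H56.Lind.Diag

set_option autoImplicit false

/-!
# There is no `Π⁰₃`-universal numerated Boolean algebra: the diagonal algebra
-/

namespace Pool.Agent.H56.Lind

open Nat.Partrec (Code)
open Nat.Partrec.Code

theorem Lim2.all {w : ℕ → ℕ → ℕ → Bool} {l : ℕ → Bool} (h : ∀ v, Lim2 (w v) (l v)) (n : ℕ) :
    ∃ s₀, ∀ s ≥ s₀, ∃ t₀, ∀ t ≥ t₀, ∀ v ≤ n, w v s t = l v := by
  induction n with
  | zero =>
    obtain ⟨s₀, h₀⟩ := h 0
    refine ⟨s₀, fun s hs => ?_⟩
    obtain ⟨t₀, ht⟩ := h₀ s hs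
    refine ⟨t₀, fun t htt v hv => ?_⟩
    obtain rfl : v = 0 := Nat.le_zero.1 hv
    exact ht t htt
  | succ n ih =>
    obtain ⟨s₁, h₁⟩ := ih
    obtain ⟨s₂, h₂⟩ := h (n + 1)
    refine ⟨max s₁ s₂, fun s hs => ?_⟩
    obtain ⟨t₁, h₁⟩ := h₁ s (le_trans (le_max_left _ _) hs)
    obtain ⟨t₂, h₂⟩ := h₂ s (le_trans (le_max_right _ _) hs)
    refine ⟨max t₁ t₂, fun t ht v hv => ?_⟩
    rcases Nat.le_succ_iff.1 hv with h | h
    · exact h₁ t (le_trans (le_max_left _ _) ht) v h
    · subst h
      exact h₂ t (le_trans (le_max_right _ _) ht)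

/-! ### Computability of the evaluation of Boolean terms -/

theorem computable_beq {α : Type} [Primcodable α] {f : α → ℕ} (hf : Computable f) (c : ℕ) :
    Computable fun a => f a == c :=
  (Primrec.beq.to_comp : Computable₂ _).comp hf (Computable.const c)

theorem computable_evStep {α : Type} [Primcodable α] {β : α → ℕ → Bool} (hβ : Computable₂ β) :
    Computable₂ fun a (l : List Bool) => evStep (β a) l := by
  have hlen : Computable fun p : α × List Bool => p.2.length :=
    (Primrec.list_length.to_comp).comp Computable.snd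
  have h1 : Computable fun p : α × List Bool => (Nat.unpair p.2.length).1 :=
    Computable.fst.comp (Computable.unpair.comp hlen)
  have h2 : Computable fun p : α × List Bool => (Nat.unpair p.2.length).2 :=
    Computable.snd.comp (Computable.unpair.comp hlen)
  have h3 : Computable fun p : α × List Bool => (Nat.unpair (Nat.unpair p.2.length).2).1 :=
    Computable.fst.comp (Computable.unpair.comp h2)
  have h4 : Computable fun p : α × List Bool => (Nat.unpair (Nat.unpair p.2.length).2).2 :=
    Computable.snd.comp (Computable.unpair.comp h2)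
  have hg {k : α × List Bool → ℕ} (hk : Computable k) :
      Computable fun p : α × List Bool => p.2.getD (k p) false :=
    ((Primrec.list_getD false).to_comp : Computable₂ _).comp Computable.snd hk
  have hb : Computable fun p : α × List Bool => β p.1 (Nat.unpair p.2.length).2 :=
    hβ.comp Computable.fst h2
  have key : Computable fun p : α × List Bool =>
      bif (Nat.unpair p.2.length).1 == 0 then β p.1 (Nat.unpair p.2.length).2
      else bif (Nat.unpair p.2.length).1 == 1 then !(p.2.getD (Nat.unpair p.2.length).2 false)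
      else bif (Nat.unpair p.2.length).1 == 2 then
        p.2.getD (Nat.unpair (Nat.unpair p.2.length).2).1 false &&
          p.2.getD (Nat.unpair (Nat.unpair p.2.length).2).2 false
      else bif (Nat.unpair p.2.length).1 == 3 then
        p.2.getD (Nat.unpair (Nat.unpair p.2.length).2).1 false ||
          p.2.getD (Nat.unpair (Nat.unpair p.2.length).2).2 false
      else false :=
    Computable.cond (computable_beq h1 0) hb
      (Computable.cond (computable_beq h1 1) (computable_not (hg h2))
        (Computable.cond (computable_beq h1 2) (computable_and (hg h3) (hg h4))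
          (Computable.cond (computable_beq h1 3) (computable_or (hg h3) (hg h4))
            (Computable.const false))))
  refine key.of_eq fun p => ?_
  simp only [evStep, cond_eq_ite, beq_iff_eq]

theorem computable_ev {α : Type} [Primcodable α] {β : α → ℕ → Bool} (hβ : Computable₂ β) :
    Computable₂ fun a n => ev (β a) n := by
  refine Computable.nat_strong_rec (fun a n => ev (β a) n)
    (g := fun a l => some (evStep (β a) l)) ?_ ?_
  · exact Computable.option_some.comp₂ (computable_evStep hβ)
  · intro a n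
    rw [evStep_eq]

/-! ### The diagonal set -/

section

variable (D : ℕ × ℕ × ℕ × ℕ × ℕ → Bool) (z : ℕ) (fI : ℕ → ℕ → ℕ) (fC : ℕ → ℕ)

/-- The element with number `n` is not zero, by the witness `a`. -/
def Wit (n a : ℕ) : Prop := ∀ b, ∃ c, D (n, z, a, b, c) = false

/-- Approximation of `Wit`. -/
def apW (n a s t : ℕ) : Bool := allB (fun b => anyB (fun c => !D (n, z, a, b, c)) (t + 1)) (s + 1)

theorem apW_iff (n a s t : ℕ) :
    apW D z n a s t = true ↔ ∀ b ≤ s, ∃ c ≤ t, D (n, z, a, b, c) = false := by
  simp only [apW, allB_iff, anyB_iff, Nat.lt_succ_iff, Bool.not_eq_true']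

open Classical in
theorem lim2_apW (n a : ℕ) : Lim2 (apW D z n a) (decide (Wit D z n a)) := by
  by_cases h : Wit D z n a
  · refine ⟨0, fun s _ => ?_⟩
    have hex : ∀ m, ∃ t₀, ∀ t ≥ t₀, ∀ b ≤ m, ∃ c ≤ t, D (n, z, a, b, c) = false := by
      intro m
      induction m with
      | zero =>
        obtain ⟨c, hc⟩ := h 0
        refine ⟨c, fun t ht b hb => ?_⟩
        obtain rfl : b = 0 := Nat.le_zero.1 hb
        exact ⟨c, ht, hc⟩
      | succ m ih =>
        obtain ⟨t₁, h₁⟩ := ih
        obtain ⟨c, hc⟩ := h (m + 1)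
        refine ⟨max t₁ c, fun t ht b hb => ?_⟩
        rcases Nat.le_succ_iff.1 hb with h' | h'
        · exact h₁ t (le_trans (le_max_left _ _) ht) b h'
        · subst h'
          exact ⟨c, le_trans (le_max_right _ _) ht, hc⟩
    obtain ⟨t₀, ht₀⟩ := hex s
    refine ⟨t₀, fun t ht => ?_⟩
    rw [decide_eq_true h, apW_iff]
    exact ht₀ t ht
  · have h' := h
    simp only [Wit, not_forall, not_exists] at h'
    obtain ⟨b, hb⟩ := h'
    refine ⟨b, fun s hs => ⟨0, fun t _ => ?_⟩⟩
    rw [decide_eq_false h]
    by_contra hne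
    rw [Bool.not_eq_false, apW_iff] at hne
    obtain ⟨c, -, hc⟩ := hne b hs
    exact hb c hc

/-- The statement decided by the diagonal set for the triple `(i, y)`: a witness for
`ν i ∩ - ν y ≠ 0` is found before any witness for `ν i ∩ ν y ≠ 0`. -/
def First (i y : ℕ) : Prop :=
  ∃ v, Wit D z (fI i (fC y)) v ∧ ∀ v' ≤ v, ¬ Wit D z (fI i y) v'

/-- The diagonal set. -/
def Zset (x : ℕ) : Prop :=
  Wit D z (Nat.unpair x).1 (Nat.unpair (Nat.unpair x).2).2 ∧
    ∃ y ∈ eval (Denumerable.ofNat Code (Nat.unpair (Nat.unpair x).2).1) x, First D z fI fC (Nat.unpair x).1 y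

/-- Approximation of `First`. -/
def apFirst (i y s t : ℕ) : Bool :=
  anyB (fun v => apW D z (fI i (fC y)) v s t && allB (fun v' => !apW D z (fI i y) v' s t) (v + 1)) (s + 1)

theorem apFirst_iff (i y s t : ℕ) : apFirst D z fI fC i y s t = true ↔
    ∃ v ≤ s, apW D z (fI i (fC y)) v s t = true ∧ ∀ v' ≤ v, apW D z (fI i y) v' s t = false := by
  simp only [apFirst, anyB_iff, Bool.and_eq_true, allB_iff, Nat.lt_succ_iff, Bool.not_eq_true']

open Classical in
theorem lim2_apFirst (i y : ℕ) (h : ∃ v, Wit D z (fI i (fC y)) v ∨ Wit D z (fI i y) v) :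
    Lim2 (apFirst D z fI fC i y) (decide (First D z fI fC i y)) := by
  have hspec := Nat.find_spec h
  have hmin : ∀ v < Nat.find h, ¬ Wit D z (fI i (fC y)) v ∧ ¬ Wit D z (fI i y) v := by
    intro v hv
    have := Nat.find_min h hv
    exact not_or.1 this
  obtain ⟨s₁, h₁⟩ := Lim2.all (fun v => lim2_apW D z (fI i (fC y)) v) (Nat.find h)
  obtain ⟨s₂, h₂⟩ := Lim2.all (fun v => lim2_apW D z (fI i y) v) (Nat.find h)
  refine ⟨max (max s₁ s₂) (Nat.find h), fun s hs => ?_⟩
  obtain ⟨t₁, h₁⟩ := h₁ s (le_trans (le_trans (le_max_left _ _) (le_max_left _ _)) hs)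
  obtain ⟨t₂, h₂⟩ := h₂ s (le_trans (le_trans (le_max_right _ _) (le_max_left _ _)) hs)
  refine ⟨max t₁ t₂, fun t ht => ?_⟩
  have h₁ := h₁ t (le_trans (le_max_left _ _) ht)
  have h₂ := h₂ t (le_trans (le_max_right _ _) ht)
  by_cases hN : Wit D z (fI i y) (Nat.find h)
  · have hF : ¬ First D z fI fC i y := by
      rintro ⟨v, hv, hv'⟩
      by_cases hle : Nat.find h ≤ v
      · exact hv' _ hle hN
      · exact (hmin v (not_le.1 hle)).1 hv
    rw [decide_eq_false hF]
    by_contra hne
    rw [Bool.not_eq_false, apFirst_iff] at hne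
    obtain ⟨v, -, hv, hv'⟩ := hne
    by_cases hle : Nat.find h ≤ v
    · have := hv' _ hle
      rw [h₂ _ le_rfl, decide_eq_true hN] at this
      exact Bool.noConfusion this
    · rw [h₁ _ (le_of_lt (not_le.1 hle)), decide_eq_false (hmin v (not_le.1 hle)).1] at hv
      exact Bool.noConfusion hv
  · have hM : Wit D z (fI i (fC y)) (Nat.find h) := hspec.resolve_right hN
    have hall : ∀ v' ≤ Nat.find h, ¬ Wit D z (fI i y) v' := by
      intro v' hv'
      rcases lt_or_eq_of_le hv' with h' | h'
      · exact (hmin v' h').2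
      · exact h' ▸ hN
    have hF : First D z fI fC i y := ⟨_, hM, hall⟩
    rw [decide_eq_true hF, apFirst_iff]
    refine ⟨Nat.find h, le_trans (le_max_right _ _) hs, ?_, fun v' hv' => ?_⟩
    · rw [h₁ _ le_rfl, decide_eq_true hM]
    · rw [h₂ _ hv', decide_eq_false (hall v' hv')]

/-- Approximation of the diagonal set. -/
def apZ (x s t : ℕ) : Bool :=
  apW D z (Nat.unpair x).1 (Nat.unpair (Nat.unpair x).2).2 s t &&
    (Option.casesOn (evaln s (Denumerable.ofNat Code (Nat.unpair (Nat.unpair x).2).1) x) false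
      (fun y => apFirst D z fI fC (Nat.unpair x).1 y s t) : Bool)

open Classical in
theorem lim2_apZ (hsem : ∀ i u y, Wit D z i u → ∃ v, Wit D z (fI i (fC y)) v ∨ Wit D z (fI i y) v) (x : ℕ) :
    Lim2 (apZ D z fI fC x) (decide (Zset D z fI fC x)) := by
  by_cases hW : Wit D z (Nat.unpair x).1 (Nat.unpair (Nat.unpair x).2).2
  · by_cases hy : ∃ y, y ∈ eval (Denumerable.ofNat Code (Nat.unpair (Nat.unpair x).2).1) x
    · obtain ⟨y, hy⟩ := hy
      obtain ⟨k, hk⟩ := evaln_complete.1 hy
      have hFl := lim2_apFirst D z fI fC (Nat.unpair x).1 y (hsem _ _ y hW)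
      have hWl := lim2_apW D z (Nat.unpair x).1 (Nat.unpair (Nat.unpair x).2).2
      obtain ⟨s₀, h₀⟩ := hWl.map₂ (fun a b => a && b) hFl
      refine ⟨max s₀ k, fun s hs => ?_⟩
      obtain ⟨t₀, ht₀⟩ := h₀ s (le_trans (le_max_left _ _) hs)
      refine ⟨t₀, fun t ht => ?_⟩
      have hev : evaln s (Denumerable.ofNat Code (Nat.unpair (Nat.unpair x).2).1) x = some y :=
        evaln_mono (le_trans (le_max_right _ _) hs) hk
      have h1 : apZ D z fI fC x s t = (apW D z (Nat.unpair x).1 (Nat.unpair (Nat.unpair x).2).2 s t &&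
          apFirst D z fI fC (Nat.unpair x).1 y s t) := by
        rw [apZ, hev]
      have h2 : (apW D z (Nat.unpair x).1 (Nat.unpair (Nat.unpair x).2).2 s t &&
          apFirst D z fI fC (Nat.unpair x).1 y s t) = _ := ht₀ t ht
      rw [h1, h2, decide_eq_true hW, Bool.true_and]
      have : Zset D z fI fC x ↔ First D z fI fC (Nat.unpair x).1 y := by
        constructor
        · rintro ⟨-, y', hy', hF⟩
          exact (Part.mem_unique hy' hy) ▸ hF
        · intro hF
          exact ⟨hW, y, hy, hF⟩
      simp only [this]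
    · have hZ : ¬ Zset D z fI fC x := fun h => hy ⟨h.2.choose, h.2.choose_spec.1⟩
      rw [decide_eq_false hZ]
      refine ⟨0, fun s _ => ⟨0, fun t _ => ?_⟩⟩
      have hev : evaln s (Denumerable.ofNat Code (Nat.unpair (Nat.unpair x).2).1) x = none := by
        by_contra hne
        obtain ⟨y, hy'⟩ := Option.ne_none_iff_exists'.1 hne
        exact hy ⟨y, evaln_sound (k := s) hy'⟩
      rw [apZ, hev, Bool.and_false]
  · have hZ : ¬ Zset D z fI fC x := fun h => hW h.1
    rw [decide_eq_false hZ]
    obtain ⟨s₀, h₀⟩ := lim2_apW D z (Nat.unpair x).1 (Nat.unpair (Nat.unpair x).2).2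
    refine ⟨s₀, fun s hs => ?_⟩
    obtain ⟨t₀, ht₀⟩ := h₀ s hs
    refine ⟨t₀, fun t ht => ?_⟩
    rw [apZ, ht₀ t ht, decide_eq_false hW, Bool.false_and]

variable {D z fI fC}

theorem computable_apW {α : Type} [Primcodable α] (hD : Computable D) {n a s t : α → ℕ} (hn : Computable n)
    (ha : Computable a) (hs : Computable s) (ht : Computable t) :
    Computable fun x => apW D z (n x) (a x) (s x) (t x) := by
  have inner : Computable₂ fun (q : α × ℕ) (c : ℕ) => !D (n q.1, z, a q.1, q.2, c) := by
    apply computable_not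
    apply hD.comp
    exact (hn.comp (Computable.fst.comp Computable.fst)).pair
      ((Computable.const z).pair ((ha.comp (Computable.fst.comp Computable.fst)).pair
        ((Computable.snd.comp Computable.fst).pair Computable.snd)))
  have mid : Computable₂ fun (x : α) (b : ℕ) =>
      anyB (fun c => !D (n x, z, a x, b, c)) (t x + 1) :=
    computable_anyB inner (Computable.succ.comp (ht.comp Computable.fst))
  exact computable_allB mid (Computable.succ.comp hs)

theorem computable_apFirst {α : Type} [Primcodable α] (hD : Computable D) (hI : Computable₂ fI)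
    (hC : Computable fC) {i y s t : α → ℕ} (hi : Computable i)
    (hy : Computable y) (hs : Computable s) (ht : Computable t) :
    Computable fun x => apFirst D z fI fC (i x) (y x) (s x) (t x) := by
  have hin : Computable₂ fun (q : α × ℕ) (v' : ℕ) => !apW D z (fI (i q.1) (y q.1)) v' (s q.1) (t q.1) := by
    apply computable_not
    exact computable_apW hD
      (hI.comp (hi.comp (Computable.fst.comp Computable.fst)) (hy.comp (Computable.fst.comp Computable.fst)))
      Computable.snd (hs.comp (Computable.fst.comp Computable.fst))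
      (ht.comp (Computable.fst.comp Computable.fst))
  have h1 : Computable fun q : α × ℕ =>
      allB (fun v' => !apW D z (fI (i q.1) (y q.1)) v' (s q.1) (t q.1)) (q.2 + 1) :=
    computable_allB hin (Computable.succ.comp Computable.snd)
  have h2 : Computable fun q : α × ℕ => apW D z (fI (i q.1) (fC (y q.1))) q.2 (s q.1) (t q.1) :=
    computable_apW hD
      (hI.comp (hi.comp Computable.fst) (hC.comp (hy.comp Computable.fst)))
      Computable.snd (hs.comp Computable.fst) (ht.comp Computable.fst)
  have h3 : Computable₂ fun (x : α) (v : ℕ) =>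
      apW D z (fI (i x) (fC (y x))) v (s x) (t x) &&
        allB (fun v' => !apW D z (fI (i x) (y x)) v' (s x) (t x)) (v + 1) :=
    computable_and h2 h1
  exact computable_anyB h3 (Computable.succ.comp hs)

theorem computable_apZ {α : Type} [Primcodable α] (hD : Computable D) (hI : Computable₂ fI)
    (hC : Computable fC) {x s t : α → ℕ} (hx : Computable x) (hs : Computable s) (ht : Computable t) :
    Computable fun q => apZ D z fI fC (x q) (s q) (t q) := by
  have h1 : Computable fun q => (Nat.unpair (x q)).1 := Computable.fst.comp (Computable.unpair.comp hx)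
  have h2 : Computable fun q => (Nat.unpair (x q)).2 := Computable.snd.comp (Computable.unpair.comp hx)
  have h3 : Computable fun q => (Nat.unpair (Nat.unpair (x q)).2).1 :=
    Computable.fst.comp (Computable.unpair.comp h2)
  have h4 : Computable fun q => (Nat.unpair (Nat.unpair (x q)).2).2 :=
    Computable.snd.comp (Computable.unpair.comp h2)
  have hcode : Computable fun q => (Denumerable.ofNat Code (Nat.unpair (Nat.unpair (x q)).2).1) :=
    (Primrec.ofNat Code).to_comp.comp h3
  have hev : Computable fun q =>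
      evaln (s q) (Denumerable.ofNat Code (Nat.unpair (Nat.unpair (x q)).2).1) (x q) :=
    (primrec_evaln.to_comp).comp ((hs.pair hcode).pair hx)
  refine computable_and (computable_apW hD h1 h4 hs ht) ?_
  refine Computable.option_casesOn hev (Computable.const false) ?_
  exact computable_apFirst hD hI hC (h1.comp Computable.fst) Computable.snd (hs.comp Computable.fst)
    (ht.comp Computable.fst)

end

/-! ### The two-element algebra with the diagonal numbering -/

open Classical in
/-- The two-element algebra whose `x`-th generator is one exactly if `x` is in the set `Z`. -/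
noncomputable def twoAlg (Z : ℕ → Prop) : NumAlg where
  carrier := Bool
  num := ev fun x => decide (Z x)
  surj := by
    intro b
    cases b with
    | false => exact ⟨Nat.pair 4 0, ev_false _⟩
    | true => exact ⟨Nat.pair 1 (Nat.pair 4 0), by rw [ev_not, ev_false]; rfl⟩

theorem computable_evAp {γ : Type} [Primcodable γ] {β : ℕ → ℕ → ℕ → Bool}
    (hc : Computable₂ fun (q : ℕ × ℕ) (x : ℕ) => β x q.1 q.2) {s t n : γ → ℕ} (hs : Computable s)
    (ht : Computable t) (hn : Computable n) :
    Computable fun p => ev (fun x => β x (s p) (t p)) (n p) :=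
  (computable_ev hc).comp (hs.pair ht) hn

theorem computable_beq₂ {γ : Type} [Primcodable γ] {f g : γ → Bool} (hf : Computable f) (hg : Computable g) :
    Computable fun p => f p == g p :=
  (Primrec.beq.to_comp : Computable₂ _).comp hf hg

/-- The decision procedure for equality in the diagonal algebra. -/
def eqDec (β : ℕ → ℕ → ℕ → Bool) (p : ℕ × ℕ × ℕ × ℕ × ℕ) : Bool :=
  ev (fun x => β x (p.2.2.1 + (Nat.unpair p.2.2.2.1).1) ((Nat.unpair p.2.2.2.1).2 + p.2.2.2.2)) p.1 ==
    ev (fun x => β x (p.2.2.1 + (Nat.unpair p.2.2.2.1).1) ((Nat.unpair p.2.2.2.1).2 + p.2.2.2.2)) p.2.1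

theorem computable_eqDec {β : ℕ → ℕ → ℕ → Bool}
    (hc : Computable₂ fun (q : ℕ × ℕ) (x : ℕ) => β x q.1 q.2) : Computable (eqDec β) := by
  have ha : Computable fun p : ℕ × ℕ × ℕ × ℕ × ℕ => p.2.2.1 :=
    Computable.fst.comp (Computable.snd.comp Computable.snd)
  have hb : Computable fun p : ℕ × ℕ × ℕ × ℕ × ℕ => p.2.2.2.1 :=
    Computable.fst.comp (Computable.snd.comp (Computable.snd.comp Computable.snd))
  have hcc : Computable fun p : ℕ × ℕ × ℕ × ℕ × ℕ => p.2.2.2.2 :=
    Computable.snd.comp (Computable.snd.comp (Computable.snd.comp Computable.snd))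
  have hb1 : Computable fun p : ℕ × ℕ × ℕ × ℕ × ℕ => (Nat.unpair p.2.2.2.1).1 :=
    Computable.fst.comp (Computable.unpair.comp hb)
  have hb2 : Computable fun p : ℕ × ℕ × ℕ × ℕ × ℕ => (Nat.unpair p.2.2.2.1).2 :=
    Computable.snd.comp (Computable.unpair.comp hb)
  have hs : Computable fun p : ℕ × ℕ × ℕ × ℕ × ℕ => p.2.2.1 + (Nat.unpair p.2.2.2.1).1 :=
    (Primrec.nat_add.to_comp : Computable₂ _).comp ha hb1
  have ht : Computable fun p : ℕ × ℕ × ℕ × ℕ × ℕ => (Nat.unpair p.2.2.2.1).2 + p.2.2.2.2 :=
    (Primrec.nat_add.to_comp : Computable₂ _).comp hb2 hcc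
  exact computable_beq₂ (computable_evAp hc hs ht Computable.fst)
    (computable_evAp hc hs ht (Computable.fst.comp Computable.snd))

open Classical in
theorem twoAlg_isPi3 {Z : ℕ → Prop} {β : ℕ → ℕ → ℕ → Bool} (hβ : ∀ x, Lim2 (β x) (decide (Z x)))
    (hc : Computable₂ fun (q : ℕ × ℕ) (x : ℕ) => β x q.1 q.2) : (twoAlg Z).IsPi3 where
  sup := by
    refine ⟨fun i j => Nat.pair 3 (Nat.pair i j), ?_, fun i j => ev_or _ _ _⟩
    exact (Primrec₂.natPair.to_comp : Computable₂ _).comp (Computable.const 3)
      ((Primrec₂.natPair.to_comp : Computable₂ _).comp Computable.fst Computable.snd)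
  inf := by
    refine ⟨fun i j => Nat.pair 2 (Nat.pair i j), ?_, fun i j => ev_and _ _ _⟩
    exact (Primrec₂.natPair.to_comp : Computable₂ _).comp (Computable.const 2)
      ((Primrec₂.natPair.to_comp : Computable₂ _).comp Computable.fst Computable.snd)
  compl := by
    refine ⟨fun i => Nat.pair 1 i, ?_, fun i => ev_not _ _⟩
    exact (Primrec₂.natPair.to_comp : Computable₂ _).comp (Computable.const 1) Computable.id
  eq := by
    refine ⟨eqDec β, computable_eqDec hc, ?_⟩
    intro m n
    have hl := (lim2_ev hβ m).map₂ (fun a b => a == b) (lim2_ev hβ n)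
    have := hl.iff
    rw [beq_iff_eq] at this
    exact this

/-- **There is no `Π⁰₃`-universal numerated Boolean algebra.** -/
theorem no_universal (U : NumAlg) : ¬ U.IsPi3Universal := by
  classical
  rintro ⟨hU, huniv⟩
  obtain ⟨fI, hI, hfI⟩ := hU.inf
  obtain ⟨fC, hC, hfC⟩ := hU.compl
  obtain ⟨D, hD, hDeq⟩ := hU.eq
  obtain ⟨z, hz⟩ := U.surj ⊥
  have hwit : ∀ n, (∃ v, Wit D z n v) ↔ U.num n ≠ ⊥ := by
    intro n
    have h1 : U.num n = U.num z ↔ _ := hDeq n z
    rw [hz] at h1
    constructor
    · rintro ⟨v, hv⟩ h0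
      obtain ⟨b, hb⟩ := h1.1 h0 v
      obtain ⟨c, hc⟩ := hv b
      rw [hb c] at hc
      exact Bool.noConfusion hc
    · intro hne
      have h2 : ¬ ∀ a, ∃ b, ∀ c, D (n, z, a, b, c) = true := fun h => hne (h1.2 h)
      push Not at h2
      obtain ⟨a, ha⟩ := h2
      refine ⟨a, fun b => ?_⟩
      obtain ⟨c, hc⟩ := ha b
      exact ⟨c, by simpa using hc⟩
  have hsem : ∀ i u y, Wit D z i u → ∃ v, Wit D z (fI i (fC y)) v ∨ Wit D z (fI i y) v := by
    intro i u y hu
    have hi : U.num i ≠ ⊥ := (hwit i).1 ⟨u, hu⟩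
    by_contra hno
    push Not at hno
    have h1 : U.num (fI i (fC y)) = ⊥ := by
      by_contra h
      obtain ⟨v, hv⟩ := (hwit _).2 h
      exact (hno v).1 hv
    have h2 : U.num (fI i y) = ⊥ := by
      by_contra h
      obtain ⟨v, hv⟩ := (hwit _).2 h
      exact (hno v).2 hv
    rw [hfI, hfC] at h1
    rw [hfI] at h2
    apply hi
    have h3 : U.num i ≤ U.num y := by
      rw [← disjoint_compl_right_iff, disjoint_iff]
      exact h1
    rwa [inf_eq_left.2 h3] at h2
  have hA : (twoAlg (Zset D z fI fC)).IsPi3 := by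
    refine twoAlg_isPi3 (β := apZ D z fI fC) (lim2_apZ D z fI fC hsem) ?_
    exact computable_apZ hD hI hC Computable.snd (Computable.fst.comp Computable.fst)
      (Computable.snd.comp Computable.fst)
  obtain ⟨a, μ, f, g, hf, -, hμ, -⟩ := huniv _ hA
  obtain ⟨i, hi⟩ := U.surj a
  have ha : U.num i ≠ ⊥ := by
    intro h0
    have hsub : Subsingleton (Set.Iic a) := by
      constructor
      rintro ⟨x, hx⟩ ⟨y, hy⟩
      have hx' : x ≤ ⊥ := by rw [← h0, hi]; exact hx
      have hy' : y ≤ ⊥ := by rw [← h0, hi]; exact hy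
      exact Subtype.ext ((le_bot_iff.1 hx').trans (le_bot_iff.1 hy').symm)
    have : (true : Bool) = false := μ.injective (Subsingleton.elim _ _)
    exact Bool.noConfusion this
  obtain ⟨u, hu⟩ := (hwit i).2 ha
  -- the code of the reduction
  have hf' : Computable fun x => f (Nat.pair 0 x) :=
    hf.comp ((Primrec₂.natPair.to_comp : Computable₂ _).comp (Computable.const 0) Computable.id)
  have hp : Nat.Partrec (fun x => Part.some (f (Nat.pair 0 x))) := Partrec.nat_iff.1 hf'
  obtain ⟨c, hc⟩ := exists_code.1 hp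
  set x := Nat.pair i (Nat.pair (Encodable.encode c) u) with hxdef
  set y := f (Nat.pair 0 x) with hydef
  have hx1 : (Nat.unpair x).1 = i := by rw [hxdef, Nat.unpair_pair]
  have hx2 : (Nat.unpair x).2 = Nat.pair (Encodable.encode c) u := by rw [hxdef, Nat.unpair_pair]
  have hx3 : (Nat.unpair (Nat.unpair x).2).1 = Encodable.encode c := by rw [hx2, Nat.unpair_pair]
  have hx4 : (Nat.unpair (Nat.unpair x).2).2 = u := by rw [hx2, Nat.unpair_pair]
  have hZ : Zset D z fI fC x ↔ First D z fI fC i y := by
    unfold Zset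
    rw [hx1, hx3, hx4, Denumerable.ofNat_encode, hc]
    constructor
    · rintro ⟨-, y', hy', hF⟩
      rw [Part.mem_some_iff] at hy'
      rw [hy'] at hF
      exact hF
    · intro hF
      exact ⟨hu, y, Part.mem_some _, hF⟩
  have hval : μ (decide (Zset D z fI fC x)) = ⟨U.num y ⊓ a, inf_le_right⟩ := by
    have := hμ (Nat.pair 0 x)
    have e : (twoAlg (Zset D z fI fC)).num (Nat.pair 0 x) = decide (Zset D z fI fC x) := ev_var _ _
    rw [e] at this
    exact this
  by_cases hin : Zset D z fI fC x
  · rw [decide_eq_true hin] at hval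
    have htop : μ true = ⟨a, le_rfl⟩ := by
      apply le_antisymm
      · exact (μ true).2
      · have hh : ∀ b : Bool, b ≤ true := fun b => by cases b <;> simp
        have := μ.monotone (hh (μ.symm ⟨a, le_rfl⟩))
        rwa [μ.apply_symm_apply] at this
    rw [htop] at hval
    have hle : a ≤ U.num y := by
      have := congrArg Subtype.val hval
      simp only at this
      rw [this]
      exact inf_le_left
    obtain ⟨v, hv, -⟩ := hZ.1 hin
    have hne := (hwit _).1 ⟨v, hv⟩
    rw [hfI, hfC, hi] at hne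
    apply hne
    rw [← disjoint_iff, disjoint_compl_right_iff]
    exact hle
  · rw [decide_eq_false hin] at hval
    have hbot : μ false = ⟨⊥, bot_le⟩ := by
      apply le_antisymm
      · have hh : ∀ b : Bool, false ≤ b := fun b => by cases b <;> simp
        have := μ.monotone (hh (μ.symm ⟨⊥, bot_le⟩))
        rwa [μ.apply_symm_apply] at this
      · exact (bot_le : (⊥ : U.carrier) ≤ (μ false).1)
    rw [hbot] at hval
    have hbo : U.num y ⊓ a = ⊥ := (congrArg Subtype.val hval).symm
    have hN : ∀ v, ¬ Wit D z (fI i y) v := by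
      intro v hv
      have := (hwit _).1 ⟨v, hv⟩
      rw [hfI, hi, inf_comm] at this
      exact this hbo
    obtain ⟨v, hv⟩ := hsem i u y hu
    have hM := hv.resolve_right (hN v)
    exact hin (hZ.2 ⟨v, hM, fun v' _ => hN v'⟩)

end Pool.Agent.H56.Lind
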